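import Mathlib
import Pool.Agent.Work.MP_8976f7_nt.StatesThree

set_option autoImplicit false

namespace Pool.Agent.Results.MP_8976f7_nt.CounterexampleThree

open Pool.Agent.Work.MP_8976f7_nt

/-- The number `A_{3,118}(n)` of 118-coloured ternary partitions of `n` is positive and its 3-adic
valuation is at most `3` for every `n`, although `118` is not in `E_3`: the conjecture also fails
for odd primes. -/
theorem result :
    (118 ∉ exceptional 3 ∧ ∀ n : ℕ, 0 < A 3 118 n ∧ padicValNat 3 (A 3 118 n) ≤ 3) ∧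
    ¬ (∀ p k : ℕ, p.Prime → p ≠ 2 → 0 < k → k ∉ exceptional p →
        ¬ BddAbove (Set.range fun n : ℕ => padicValNat p (A p k n))) := by
  have h118 : 118 ∉ exceptional 3 := by
    rintro ⟨s, u, hu1, hu2, h⟩
    rcases Nat.lt_or_ge s 5 with hs | hs
    · interval_cases s <;> omega
    · have h1 : 3 ^ 5 ≤ 3 ^ s := Nat.pow_le_pow_right (by norm_num) hs
      have h2 : 3 ^ s ≤ u * 3 ^ s := Nat.le_mul_of_pos_left _ (by omega)
      omega
  have hA : ∀ n : ℕ, 0 < A 3 118 n ∧ padicValNat 3 (A 3 118 n) ≤ 3 := by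
    intro n
    have h := not_dvd_three n
    have hne : A 3 118 n ≠ 0 := by
      intro h0
      rw [h0] at h
      exact h (dvd_zero _)
    refine ⟨Nat.pos_of_ne_zero hne, ?_⟩
    by_contra hlt
    push Not at hlt
    apply h
    have h2 : 3 ^ 4 ∣ A 3 118 n := (padicValNat_dvd_iff_le (hp := ⟨Nat.prime_three⟩) hne).mpr hlt
    simpa using h2
  refine ⟨⟨h118, hA⟩, ?_⟩
  intro H
  apply H 3 118 Nat.prime_three (by norm_num) (by norm_num) h118
  refine ⟨3, ?_⟩
  rintro _ ⟨n, rfl⟩
  exact (hA n).2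

end Pool.Agent.Results.MP_8976f7_nt.CounterexampleThree
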