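import Mathlib
import Pool.Agent.Work.MP_8976f7_nt.StatesTwo

set_option autoImplicit false

namespace Pool.Agent.Results.MP_8976f7_nt.CounterexampleTwo

open Pool.Agent.Work.MP_8976f7_nt

/-- The number `A_{2,11}(n)` of 11-coloured binary partitions of `n` is positive and its 2-adic
valuation is at most `4` for every `n`, although `11` is not in `E_2`. Hence the conjecture
(unboundedness of `ν_p(A_{p,k}(n))` for every prime `p` and every positive `k ∉ E_p`) is false. -/
theorem result :
    (11 ∉ exceptional 2 ∧ ∀ n : ℕ, 0 < A 2 11 n ∧ padicValNat 2 (A 2 11 n) ≤ 4) ∧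
    ¬ (∀ p k : ℕ, p.Prime → 0 < k → k ∉ exceptional p →
        ¬ BddAbove (Set.range fun n : ℕ => padicValNat p (A p k n))) := by
  have h11 : 11 ∉ exceptional 2 := by
    rintro ⟨s, u, hu1, hu2, h⟩
    have hu : u = 1 := by omega
    subst hu
    rcases Nat.lt_or_ge s 4 with hs | hs
    · interval_cases s <;> omega
    · have h1 : 2 ^ 4 ≤ 2 ^ s := Nat.pow_le_pow_right (by norm_num) hs
      omega
  have hA : ∀ n : ℕ, 0 < A 2 11 n ∧ padicValNat 2 (A 2 11 n) ≤ 4 := by
    intro n
    have h := not_dvd_two n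
    have hne : A 2 11 n ≠ 0 := by
      intro h0
      rw [h0] at h
      exact h (dvd_zero _)
    refine ⟨Nat.pos_of_ne_zero hne, ?_⟩
    by_contra hlt
    push Not at hlt
    apply h
    have h2 : 2 ^ 5 ∣ A 2 11 n := (padicValNat_dvd_iff_le (hp := ⟨Nat.prime_two⟩) hne).mpr hlt
    simpa using h2
  refine ⟨⟨h11, hA⟩, ?_⟩
  intro H
  apply H 2 11 Nat.prime_two (by norm_num) h11
  refine ⟨4, ?_⟩
  rintro _ ⟨n, rfl⟩
  exact (hA n).2

end Pool.Agent.Results.MP_8976f7_nt.CounterexampleTwo
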